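import Pool.Agent.H98.KS.Targets1

/-!
Board `ks_modules`, row LA: second moment.
-/

set_option autoImplicit false

open Finset

namespace Pool.Agent.H17.KS

open Pool.Agent.H98.KS

theorem ks_LA (hEQ2 : T_EQ2) : T_LA := by
  intro k d L F X T hk hd hX hT h
  classical
  have h1 : ∀ x ∈ X, T ^ 2 / 2 ≤
      ((F.offDiag.filter (fun p => pw k (x - p.1) = pw k (x - p.2))).card : ℝ) := by
    intro x hx
    obtain ⟨l, hl⟩ := h x hx
    set G := F.filter (fun y => pw k (x - y) = l) with hG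
    have hGT : T ≤ (G.card : ℝ) := hl
    have hsub : G.offDiag ⊆ F.offDiag.filter (fun p => pw k (x - p.1) = pw k (x - p.2)) := by
      intro p hp
      rw [mem_offDiag] at hp
      rw [mem_filter, mem_offDiag]
      have e1 := mem_filter.1 hp.1
      have e2 := mem_filter.1 hp.2.1
      exact ⟨⟨e1.1, e2.1, hp.2.2⟩, e1.2.trans e2.2.symm⟩
    have hc := card_le_card hsub
    rw [offDiag_card] at hc
    have hc' : ((G.card * G.card - G.card : ℕ) : ℝ) ≤
        ((F.offDiag.filter (fun p => pw k (x - p.1) = pw k (x - p.2))).card : ℝ) := by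
      exact_mod_cast hc
    refine le_trans ?_ hc'
    rw [Nat.cast_sub (Nat.le_mul_self _)]
    push_cast
    nlinarith
  have h2 : ∑ x ∈ X, T ^ 2 / 2 ≤ ∑ x ∈ X,
      ((F.offDiag.filter (fun p => pw k (x - p.1) = pw k (x - p.2))).card : ℝ) := sum_le_sum h1
  have h3 : ∑ x ∈ X, (F.offDiag.filter (fun p => pw k (x - p.1) = pw k (x - p.2))).card =
      ∑ p ∈ F.offDiag, (X.filter (fun x => pw k (x - p.1) = pw k (x - p.2))).card := by
    simp only [card_filter]
    exact sum_comm
  have h4 : ∑ p ∈ F.offDiag, (X.filter (fun x => pw k (x - p.1) = pw k (x - p.2))).card ≤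
      ∑ p ∈ F.offDiag, L ^ (d - 1) := by
    refine sum_le_sum fun p hp => ?_
    refine le_trans (card_le_card (filter_subset_filter _ hX)) ?_
    exact hEQ2 k d L p.1 p.2 hk hd (mem_offDiag.1 hp).2.2
  have h5 : ∑ p ∈ F.offDiag, L ^ (d - 1) ≤ F.card ^ 2 * L ^ (d - 1) := by
    rw [sum_const, smul_eq_mul, offDiag_card]
    refine Nat.mul_le_mul_right _ ?_
    rw [sq]
    exact Nat.sub_le _ _
  have h6 : ((∑ x ∈ X, (F.offDiag.filter (fun p => pw k (x - p.1) = pw k (x - p.2))).card : ℕ) : ℝ)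
      ≤ (F.card : ℝ) ^ 2 * (L : ℝ) ^ (d - 1) := by
    rw [h3]
    exact_mod_cast h4.trans h5
  rw [sum_const, nsmul_eq_mul] at h2
  push_cast at h6
  nlinarith

end Pool.Agent.H17.KS
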