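import Pool.Agent.H98.KS.Targets1

/-!
Board `ks_modules`, row PT: few `h` unless `τ` is near a rational with small denominator.
-/

set_option autoImplicit false

open Finset

namespace Pool.Agent.H17.KS

open Pool.Agent.H98.KS

theorem ks_PT (hRLp : T_RLp) : T_PT := by
  intro k L Qc ε P τ β S hk hL hQ hε hP hP1 hS hcard hq h1 h2 h3
  classical
  have hQ0 : 0 < Qc := by linarith
  choose! q hq using hq
  have hmaps : ∀ h ∈ S, q h ∈ Icc 1 ⌊Qc⌋₊ := fun h hh =>
    mem_Icc.2 ⟨(hq h hh).1, Nat.le_floor (hq h hh).2.1⟩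
  have hne : (Icc 1 ⌊Qc⌋₊).Nonempty := ⟨1, mem_Icc.2 ⟨le_rfl, Nat.le_floor (by simpa using hQ)⟩⟩
  have hb : (Icc 1 ⌊Qc⌋₊).card • (P * L / Qc) ≤ (S.card : ℝ) := by
    refine le_trans ?_ hcard
    rw [Nat.card_Icc, Nat.add_sub_cancel, nsmul_eq_mul]
    have hfl : (⌊Qc⌋₊ : ℝ) ≤ Qc := Nat.floor_le hQ0.le
    calc (⌊Qc⌋₊ : ℝ) * (P * L / Qc) ≤ Qc * (P * L / Qc) := by gcongr
      _ = P * L := by field_simp
  obtain ⟨q₀, hq₀, hcard'⟩ := exists_le_card_fiber_of_nsmul_le_card_of_maps_to hmaps hne hb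
  have hq₀1 : 1 ≤ q₀ := (mem_Icc.1 hq₀).1
  have hq₀2 : (q₀ : ℝ) ≤ Qc := by
    have := (mem_Icc.1 hq₀).2
    exact (Nat.le_floor_iff hQ0.le).1 this
  obtain ⟨q', hq'1, hq'2, hq'3⟩ := hRLp (3 * L) (q₀ * (k * τ)) (q₀ * (k * β)) ε (P / (3 * Qc))
    (S.filter (fun h => q h = q₀)) (by linarith) hε (by positivity)
    (by rw [div_le_one (by positivity)]; linarith)
    (fun h hh => hS h (mem_filter.1 hh).1)
    (by
      refine le_trans (le_of_eq ?_) hcard'
      field_simp)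
    (fun h hh => by
      have e1 := (mem_filter.1 hh)
      have e2 := (hq h e1.1).2.2
      rw [e1.2] at e2
      have e3 : (q₀ : ℝ) * (k * τ) * h + q₀ * (k * β) = q₀ * (k * (τ * h + β)) := by ring
      rw [e3]
      exact e2)
    (by
      rw [div_div, le_div_iff₀ (by positivity)]
      linarith)
    (by
      rw [show P / (3 * Qc) * (3 * L) = P * L / Qc by field_simp, le_div_iff₀ hQ0]
      linarith)
    (by linarith)
  refine ⟨q' * (q₀ * k), Nat.mul_pos hq'1 (Nat.mul_pos hq₀1 hk), ?_, ?_⟩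
  · push_cast
    have e1 : (4 : ℝ) / (P / (3 * Qc)) = 12 * Qc / P := by
      field_simp
      norm_num
    rw [e1] at hq'2
    calc (q' : ℝ) * (q₀ * k) ≤ (12 * Qc / P) * (Qc * k) := by gcongr
      _ = _ := by ring
  · have e1 : ((q' * (q₀ * k) : ℕ) : ℝ) * τ = q' * (q₀ * (k * τ)) := by
      push_cast
      ring
    rw [e1]
    refine hq'3.trans (le_of_eq ?_)
    field_simp

end Pool.Agent.H17.KS
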