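import Pool.Agent.H98.KS.Targets1

/-!
Board `ks_modules`, row RA: one scale in range A.
-/

set_option autoImplicit false

open Finset

namespace Pool.Agent.H17.KS

open Pool.Agent.H98.KS

theorem cnt_shift (k : ℕ) {d : ℕ} (F : Finset (Fin d → ℤ)) (x v : Fin d → ℤ) (l : ℕ) :
    cnt k (F.image (fun y => y - v)) (x - v) l = cnt k F x l := by
  classical
  have hinj : Function.Injective (fun y : Fin d → ℤ => y - v) := fun a b h => by
    simpa using h
  rw [cnt, cnt]
  rw [← card_image_of_injective (F.filter (fun y => pw k (x - y) = l)) hinj]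
  congr 1
  ext w
  simp only [mem_filter, mem_image]
  constructor
  · rintro ⟨⟨y, hy, rfl⟩, h⟩
    refine ⟨y, ⟨hy, ?_⟩, rfl⟩
    rwa [sub_sub_sub_cancel_right] at h
  · rintro ⟨y, ⟨hy, h⟩, rfl⟩
    refine ⟨⟨y, hy, rfl⟩, ?_⟩
    rwa [sub_sub_sub_cancel_right]

theorem coord_lt {k d L l : ℕ} (hk : 1 ≤ k) (y : Fin d → ℤ) (h : pw k y = l)
    (hl : l < (2 * L) ^ k) (i : Fin d) : |y i| < 2 * (L : ℤ) := by
  have h1 : (y i).natAbs ^ k ≤ pw k y :=
    single_le_sum (f := fun i => (y i).natAbs ^ k) (fun _ _ => Nat.zero_le _) (mem_univ i)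
  have h2 : (y i).natAbs ^ k < (2 * L) ^ k := by omega
  have h3 : (y i).natAbs < 2 * L := lt_of_pow_lt_pow_left₀ k (Nat.zero_le _) h2
  rw [abs_lt]
  constructor <;> omega

theorem arith (k m : ℕ) (hk : 1 ≤ k) (c0 N L X F : ℝ) (hc : 0 < c0) (hN : 0 < N) (hL : 0 < L)
    (hF : 0 ≤ F) (D : ℝ) (hFl : F ≤ D * (L / N) ^ (k + m))
    (h : (c0 * (L / N) ^ m) ^ 2 * X ≤ 2 * F ^ 2 * L ^ (k + m - 1)) :
    X ≤ 2 * D / c0 ^ 2 * N ^ (k + m) * (L ^ (2 * k - 1) / N ^ (2 * k)) * F := by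
  obtain ⟨k, rfl⟩ : ∃ k', k = k' + 1 := ⟨k - 1, by omega⟩
  have e1 : k + 1 + m - 1 = k + m := by omega
  have e2 : 2 * (k + 1) - 1 = 2 * k + 1 := by omega
  rw [e1] at h
  rw [e2]
  have hpos : 0 < (c0 * (L / N) ^ m) ^ 2 := by positivity
  have h2 : 2 * F ^ 2 * L ^ (k + m) ≤ 2 * (F * (D * (L / N) ^ (k + 1 + m))) * L ^ (k + m) := by
    have : F ^ 2 ≤ F * (D * (L / N) ^ (k + 1 + m)) := by
      rw [sq]
      exact mul_le_mul_of_nonneg_left hFl hF
    gcongr
  have h3 : (c0 * (L / N) ^ m) ^ 2 *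
      (2 * D / c0 ^ 2 * N ^ (k + 1 + m) * (L ^ (2 * k + 1) / N ^ (2 * (k + 1))) * F) =
      2 * (F * (D * (L / N) ^ (k + 1 + m))) * L ^ (k + m) := by
    rw [div_pow, div_pow]
    field_simp
    ring
  have h4 := h.trans h2
  rw [← h3] at h4
  exact le_of_mul_le_mul_left h4 hpos

theorem ks_RA (hLOC : T_LOC) (hLA : T_LA) : T_RA := by
  intro k d hk hkd c0 hc0
  classical
  obtain ⟨m, rfl⟩ : ∃ m, d = k + m := ⟨d - k, by omega⟩
  have hm : 1 ≤ m := by omega
  refine ⟨max 1 (2 / c0), 6 ^ (k + m) * (2 * 7 ^ (k + m) / c0 ^ 2), le_max_left _ _,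
    by positivity, ?_⟩
  intro N L F X hN hL h
  have hN0 : (0 : ℝ) < N := by linarith
  have hL1 : N ≤ (L : ℝ) := by
    refine le_trans ?_ hL
    calc N = 1 * N := (one_mul N).symm
      _ ≤ _ := by gcongr; exact le_max_left _ _
  have hLr : (1 : ℝ) ≤ L := hN.trans hL1
  have hLn : 1 ≤ L := by exact_mod_cast hLr
  have hL0 : (0 : ℝ) < L := by linarith
  have hLN1 : 1 ≤ (L : ℝ) / N := by rwa [le_div_iff₀ hN0, one_mul]
  have hLN2 : 2 / c0 ≤ (L : ℝ) / N := by
    rw [le_div_iff₀ hN0]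
    refine le_trans ?_ hL
    gcongr
    exact le_max_right _ _
  have hT : 2 ≤ c0 * ((L : ℝ) / N) ^ m := by
    have h1 : (L : ℝ) / N ≤ ((L : ℝ) / N) ^ m := le_self_pow₀ hLN1 (by omega)
    calc (2 : ℝ) = c0 * (2 / c0) := by field_simp
      _ ≤ c0 * ((L : ℝ) / N) ^ m := by
        gcongr
        exact hLN2.trans h1
  have key := hLOC (k + m) L F X
    (2 * 7 ^ (k + m) / c0 ^ 2 * N ^ (k + m) * ((L : ℝ) ^ (2 * k - 1) / N ^ (2 * k))) hLn
    (by positivity) (fun z => ?_)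
  · calc (X.card : ℝ) ≤ _ := key
      _ = _ := by ring
  set Xz := X.filter (fun x => ∀ i, (L : ℤ) * z i ≤ x i ∧ x i < L * z i + L) with hXz
  set Fz := F.filter (fun y => ∀ i, (L : ℤ) * z i - 2 * L ≤ y i ∧ y i ≤ L * z i + 3 * L) with hFz
  rcases Xz.eq_empty_or_nonempty with he | ⟨x₀, hx₀⟩
  · rw [he]
    simp only [card_empty, Nat.cast_zero]
    positivity
  set v : Fin (k + m) → ℤ := fun i => (L : ℤ) * z i with hv
  have hcnt : ∀ x ∈ Xz, ∃ l, c0 * ((L : ℝ) / N) ^ m ≤ cnt k Fz x l := by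
    intro x hx
    have hx' := mem_filter.1 hx
    obtain ⟨l, hl1, hl2, hl3⟩ := (h x hx'.1).2
    refine ⟨l, ?_⟩
    have e1 : k + m - k = m := by omega
    rw [e1] at hl3
    refine hl3.trans ?_
    rw [cnt, cnt]
    have hsub : F.filter (fun y => pw k (x - y) = l) ⊆ Fz.filter (fun y => pw k (x - y) = l) := by
      intro y hy
      have hy' := mem_filter.1 hy
      rw [mem_filter, hFz, mem_filter]
      refine ⟨⟨hy'.1, fun i => ?_⟩, hy'.2⟩
      have h1 := coord_lt (by omega : 1 ≤ k) (x - y) hy'.2 hl2 i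
      rw [Pi.sub_apply, abs_lt] at h1
      have h2 := hx'.2 i
      constructor <;> linarith [h1.1, h1.2, h2.1, h2.2]
    exact_mod_cast card_le_card hsub
  have hFcard : (Fz.card : ℝ) ≤ 7 ^ (k + m) * ((L : ℝ) / N) ^ (k + m) := by
    have hx' := mem_filter.1 hx₀
    have hs := (h x₀ hx'.1).1 (3 * L)
    have hsub : Fz ⊆ F.filter (fun y => ∀ i, |y i - x₀ i| ≤ ((3 * L : ℕ) : ℤ)) := by
      intro y hy
      have hy' := mem_filter.1 hy
      rw [mem_filter]
      refine ⟨hy'.1, fun i => ?_⟩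
      have h2 := hx'.2 i
      have h3 := hy'.2 i
      rw [abs_le]
      push_cast
      constructor <;> linarith [h2.1, h2.2, h3.1, h3.2]
    have h1 : (Fz.card : ℝ) ≤
        ((F.filter (fun y => ∀ i, |y i - x₀ i| ≤ ((3 * L : ℕ) : ℤ))).card : ℝ) := by
      exact_mod_cast card_le_card hsub
    refine h1.trans (hs.trans ?_)
    rw [div_pow, ← mul_div_assoc, ← mul_pow, one_div, inv_mul_eq_div]
    push_cast
    gcongr
    linarith
  have hinj : Function.Injective (fun y : Fin (k + m) → ℤ => y - v) := fun a b h => by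
    simpa using h
  have hLA' := hLA k (k + m) L (Fz.image (fun y => y - v)) (Xz.image (fun y => y - v))
    (c0 * ((L : ℝ) / N) ^ m) (by omega) (by omega) (by
      intro w hw
      obtain ⟨x, hx, rfl⟩ := mem_image.1 hw
      have hx' := (mem_filter.1 hx).2
      rw [cell, Fintype.mem_piFinset]
      intro i
      have := hx' i
      simp only [mem_Ico, Pi.sub_apply, hv]
      constructor <;> linarith [this.1, this.2]) hT (by
      intro w hw
      obtain ⟨x, hx, rfl⟩ := mem_image.1 hw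
      obtain ⟨l, hl⟩ := hcnt x hx
      refine ⟨l, ?_⟩
      have e := cnt_shift k Fz x v l
      have e' : cnt k (Fz.image (fun y => y - v)) ((fun y => y - v) x) l = cnt k Fz x l := e
      rw [e']
      exact hl)
  rw [card_image_of_injective _ hinj, card_image_of_injective _ hinj] at hLA'
  have := arith k m (by omega) c0 N L Xz.card Fz.card hc0 hN0 hL0 (Nat.cast_nonneg _)
    (7 ^ (k + m)) hFcard hLA'
  exact this

end Pool.Agent.H17.KS
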